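import Pool.Agent.Q247.IG.Rigid

/-!
# The automorphisms of `H` act on the factors like elements of `G`
-/

set_option autoImplicit false

open Equiv Equiv.Perm

namespace Pool.Agent.Q247.IG

section
variable {G : Type} [Group G] [Fintype G]

/-- the subgroup of index two attached to a label -/
def Sp (l : Lab G) (h : H G) : Prop := h.1.right = 1 ∧ sign (h.1.left (J.fst l)) = 1

theorem sp_iff_inn (j : J G) (h : H G) : Inn (incl j).range h ↔ Sp j.lab h := by
  rw [inn_incl, Sp, sign_eq (h := h) (i := j) (j := J.fst j.lab) rfl]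

/-- test elements -/
noncomputable def tst (a b : G → ℤˣ) : H G :=
  ⟨⟨fun j => if val a b j.lab = 1 then 1 else swap 0 1, 1⟩, a, b, fun j => by
    show sign (if val a b j.lab = 1 then (1 : S G) else swap 0 1) = val a b j.lab
    by_cases h : val a b j.lab = 1
    · rw [if_pos h, h, map_one]
    · rw [if_neg h]
      have h01 : (0 : Fin (pts G)) ≠ 1 := by
        intro e
        have := congrArg Fin.val e
        simp [pts] at this
      rw [sign_swap h01]
      rcases Int.units_eq_one_or (val a b j.lab) with h' | h'
      · exact absurd h' h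
      · rw [h']⟩

theorem sp_tst (a b : G → ℤˣ) (l : Lab G) : Sp l (tst a b) ↔ val a b l = 1 := by
  have h01 : (0 : Fin (pts G)) ≠ 1 := by
    intro e
    have := congrArg Fin.val e
    simp [pts] at this
  constructor
  · rintro ⟨_, h⟩
    by_contra hne
    have h2 : (tst a b).1.left (J.fst l) = swap 0 1 := if_neg hne
    rw [h2, sign_swap h01] at h
    exact absurd h (by decide)
  · intro h
    refine ⟨rfl, ?_⟩
    have h2 : (tst a b).1.left (J.fst l) = 1 := if_pos h
    rw [h2, map_one]

open Classical in
/-- the function with the value `-1` at one point -/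
noncomputable def dl (x : G) : G → ℤˣ := fun z => if z = x then -1 else 1

theorem dl_self (x : G) : dl x x = -1 := if_pos rfl
theorem dl_ne {x z : G} (h : z ≠ x) : dl x z = 1 := if_neg h

theorem nd : ¬ ((-1 : ℤˣ) = 1) := by decide

theorem sp_inj {l l' : Lab G} (h : ∀ k : H G, Sp l k ↔ Sp l' k) : l = l' := by
  have h1 : ∀ a b : G → ℤˣ, val a b l = 1 ↔ val a b l' = 1 := by
    intro a b
    rw [← sp_tst, ← sp_tst]
    exact h _
  by_contra hne
  cases l with
  | a x =>
    cases l' with
    | a x' =>
      have hx : x' ≠ x := fun e => hne (by rw [e])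
      have := (h1 (dl x) 1).2 (by simp [val, dl_ne hx])
      simp only [val, dl_self] at this
      exact nd this
    | b y => have := (h1 1 (fun _ => -1)).1 (by simp [val]); exact nd (by simpa [val] using this)
    | c x' y => have := (h1 1 (fun _ => -1)).1 (by simp [val]); exact nd (by simpa [val] using this)
  | b y =>
    cases l' with
    | a x => have := (h1 1 (fun _ => -1)).2 (by simp [val]); exact nd (by simpa [val] using this)
    | b y' =>
      have hx : y' ≠ y := fun e => hne (by rw [e])
      have := (h1 1 (dl y)).2 (by simp [val, dl_ne hx])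
      simp only [val, dl_self] at this
      exact nd this
    | c x y' => have := (h1 (fun _ => -1) 1).1 (by simp [val]); exact nd (by simpa [val] using this)
  | c x y =>
    cases l' with
    | a x' => have := (h1 1 (fun _ => -1)).2 (by simp [val]); exact nd (by simpa [val] using this)
    | b y' => have := (h1 (fun _ => -1) 1).2 (by simp [val]); exact nd (by simpa [val] using this)
    | c x' y' =>
      by_cases hx : x' = x
      · by_cases hy : y' = y
        · exact hne (by rw [hx, hy])
        · have := (h1 1 (dl y)).2 (by simp [val, dl_ne hy])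
          simp only [val, dl_self, Pi.one_apply, one_mul] at this
          exact nd this
      · have := (h1 (dl x) 1).2 (by simp [val, dl_ne hx])
        simp only [val, dl_self, Pi.one_apply, mul_one] at this
        exact nd this

theorem sp_sum {x y x' y' : G} (h : ∀ k : H G, Sp (.a x) k → Sp (.b y) k → Sp (.c x' y') k) :
    x' = x ∧ y' = y := by
  have h1 : ∀ a b : G → ℤˣ, a x = 1 → b y = 1 → a x' * b y' = 1 := by
    intro a b ha hb
    exact (sp_tst a b (.c x' y')).1 (h _ ((sp_tst a b (.a x)).2 ha) ((sp_tst a b (.b y)).2 hb))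
  constructor
  · by_contra hne
    have := h1 (dl x') 1 (dl_ne (Ne.symm hne)) rfl
    rw [dl_self, Pi.one_apply, mul_one] at this
    exact nd this
  · by_contra hne
    have := h1 1 (dl y') rfl (dl_ne (Ne.symm hne))
    rw [dl_self, Pi.one_apply, one_mul] at this
    exact nd this

theorem sp_c (x y : G) (k : H G) (h1 : Sp (.a x) k) (h2 : Sp (.b y) k) : Sp (.c x y) k := by
  obtain ⟨a, b, hab⟩ := k.2
  refine ⟨h1.1, ?_⟩
  have e1 := h1.2
  have e2 := h2.2
  rw [hab] at e1 e2 ⊢
  simp only [J.lab_fst, val] at e1 e2 ⊢
  rw [e1, e2, one_mul]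

theorem card_lab (l : Lab G) : Nat.card {j : J G // j.lab = l} = mu l := by
  have e : {j : J G // j.lab = l} ≃ Fin (mu l) :=
    { toFun := fun j => ⟨j.1.1.2, by have := j.1.2; rw [show j.1.1.1 = l from j.2] at this; exact this⟩
      invFun := fun k => ⟨⟨(l, k.1), k.2⟩, rfl⟩
      left_inv := by
        rintro ⟨⟨⟨l', k⟩, hk⟩, hl⟩
        change l' = l at hl
        subst hl
        rfl
      right_inv := fun k => rfl }
  rw [Nat.card_congr e, Nat.card_eq_fintype_card, Fintype.card_fin]

/-- **The main lemma.** -/
theorem key (φ : H G ≃* H G) : ∃ c : G, ∀ (x : G) (h : H G), Sp (.a x) h ↔ Sp (.a (c * x)) (φ h) := by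
  -- the permutation of the factors
  have h1 : ∀ j : J G, ∃ j' : J G, (incl j').range = ((incl j).range).map φ.toMonoidHom := by
    intro j
    obtain ⟨j', hj'⟩ := good_range (good_map φ (good_incl j))
    refine ⟨j', ?_⟩
    rw [hj', MonoidHom.range_comp]
  choose σ hσ using h1
  have hσi : Function.Injective σ := by
    intro i j hij
    apply range_incl_inj
    have h2 : ((incl i).range).map φ.toMonoidHom = ((incl j).range).map φ.toMonoidHom := by
      rw [← hσ, ← hσ, hij]
    exact Subgroup.map_injective (f := φ.toMonoidHom) φ.injective h2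
  have h2 : ∀ (j : J G) (h : H G), Sp j.lab h ↔ Sp (σ j).lab (φ h) := by
    intro j h
    rw [← sp_iff_inn, ← sp_iff_inn, hσ, inn_map]
  have h3 : ∀ i j : J G, (σ i).lab = (σ j).lab ↔ i.lab = j.lab := by
    intro i j
    constructor
    · intro e
      apply sp_inj
      intro k
      rw [h2 i, h2 j, e]
    · intro e
      apply sp_inj
      intro k
      have e1 := h2 i (φ.symm k)
      have e2 := h2 j (φ.symm k)
      rw [φ.apply_symm_apply] at e1 e2
      rw [← e1, ← e2, e]
  let lam : Lab G → Lab G := fun l => (σ (J.fst l)).lab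
  have h4 : ∀ j : J G, (σ j).lab = lam j.lab := fun j => (h3 _ _).2 rfl
  have h5 : ∀ l : Lab G, mu (lam l) = mu l := by
    intro l
    rw [← card_lab, ← card_lab l]
    symm
    have hb : Function.Bijective σ := Finite.injective_iff_bijective.1 hσi
    refine Nat.card_congr (Equiv.subtypeEquiv (Equiv.ofBijective σ hb) ?_)
    intro j
    simp only [Equiv.ofBijective_apply]
    rw [show lam l = (σ (J.fst l)).lab from rfl, h3]
    rfl
  have h6 : ∀ (l : Lab G) (h : H G), Sp l h ↔ Sp (lam l) (φ h) := fun l h => h2 (J.fst l) h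
  have ha : ∀ x : G, ∃ x', lam (.a x) = .a x' := by
    intro x
    have := h5 (.a x)
    cases hl : lam (.a x) with
    | a x' => exact ⟨x', rfl⟩
    | b y => rw [hl] at this; simp [mu] at this
    | c x' y => rw [hl] at this; simp only [mu] at this; omega
  have hb : ∀ y : G, ∃ y', lam (.b y) = .b y' := by
    intro y
    have := h5 (.b y)
    cases hl : lam (.b y) with
    | a x' => rw [hl] at this; simp [mu] at this
    | b y' => exact ⟨y', rfl⟩
    | c x' y' => rw [hl] at this; simp only [mu] at this; omega
  choose sa hsa using ha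
  choose sb hsb using hb
  have hc : ∀ x y : G, (sa x)⁻¹ * sb y = x⁻¹ * y := by
    intro x y
    have h7 := h5 (.c x y)
    cases hl : lam (.c x y) with
    | a x' => rw [hl] at h7; simp only [mu] at h7; omega
    | b y' => rw [hl] at h7; simp only [mu] at h7; omega
    | c x' y' =>
      rw [hl] at h7
      simp only [mu] at h7
      have h8 : x'⁻¹ * y' = x⁻¹ * y := by
        apply (Fintype.equivFin G).injective
        apply Fin.ext
        omega
      have h9 : x' = sa x ∧ y' = sb y := by
        apply sp_sum
        intro k hk1 hk2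
        rw [← hsa] at hk1
        rw [← hsb] at hk2
        rw [← hl]
        have e1 := (h6 (.a x) (φ.symm k))
        have e2 := (h6 (.b y) (φ.symm k))
        have e3 := (h6 (.c x y) (φ.symm k))
        rw [φ.apply_symm_apply] at e1 e2 e3
        exact e3.1 (sp_c x y _ (e1.2 hk1) (e2.2 hk2))
      rw [← h9.1, ← h9.2, h8]
  refine ⟨sa 1, fun x h => ?_⟩
  have h10 : sa x = sa 1 * x := by
    have e1 := hc 1 x
    have e2 := hc x x
    simp only [inv_one, one_mul, inv_mul_cancel] at e1 e2
    have e3 : sb x = sa x := (inv_mul_eq_one.1 e2).symm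
    rw [← e3, inv_mul_eq_iff_eq_mul.1 e1]
  rw [← h10, ← hsa]
  exact h6 _ h

theorem key_unique {φ : H G ≃* H G} {x c c' : G} (h : ∀ k : H G, Sp (.a x) k ↔ Sp (.a c) (φ k))
    (h' : ∀ k : H G, Sp (.a x) k ↔ Sp (.a c') (φ k)) : c = c' := by
  have : (Lab.a c : Lab G) = .a c' := by
    apply sp_inj
    intro k
    have e1 := h (φ.symm k)
    have e2 := h' (φ.symm k)
    rw [φ.apply_symm_apply] at e1 e2
    rw [← e1, ← e2]
  simpa using this

/-- the element of `G` of an automorphism -/
noncomputable def cc (φ : MulAut (H G)) : G := (key φ).choose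

theorem cc_spec (φ : MulAut (H G)) (x : G) (h : H G) :
    Sp (.a x) h ↔ Sp (.a (cc φ * x)) (φ h) := (key φ).choose_spec x h

theorem cc_mul (φ ψ : MulAut (H G)) : cc (φ * ψ) = cc φ * cc ψ := by
  refine key_unique (φ := φ * ψ) (x := 1) ?_ ?_
  · intro k
    have := cc_spec (φ * ψ) 1 k
    rwa [mul_one] at this
  · intro k
    have e1 := cc_spec ψ 1 k
    have e2 := cc_spec φ (cc ψ * 1) (ψ k)
    rw [mul_one] at e1 e2
    exact e1.trans e2

/-- the homomorphism from the automorphism group of `H` to `G` -/
noncomputable def Phi : MulAut (H G) →* G where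
  toFun := cc
  map_one' := by
    have := cc_mul (1 : MulAut (H G)) 1
    rw [one_mul] at this
    exact left_eq_mul.1 this
  map_mul' := cc_mul

theorem phi_conj (h : H G) : Phi (MulAut.conj h) = h.1.right := by
  refine key_unique (φ := MulAut.conj h) (x := 1) ?_ ?_
  · intro k
    have := cc_spec (MulAut.conj h) 1 k
    rwa [mul_one] at this
  · intro k
    change Sp (.a 1) k ↔ Sp (.a h.1.right) (h * k * h⁻¹)
    unfold Sp
    constructor
    · rintro ⟨h1, h2⟩
      refine ⟨conj_right h1, ?_⟩
      rw [conj_left h1]
      apply sign_conj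
      rw [← h2]
      apply sign_eq
      rw [J.lab_smul]
      simp [act]
    · rintro ⟨h1, h2⟩
      have h1' : k.1.right = 1 := by
        have e : (h * k * h⁻¹).1.right = h.1.right * k.1.right * h.1.right⁻¹ := rfl
        rw [e] at h1
        rw [mul_inv_eq_one, mul_eq_left] at h1
        exact h1
      refine ⟨h1', ?_⟩
      rw [conj_left h1'] at h2
      have h3 := sign_conj (h.1.left (J.fst (Lab.a h.1.right)))⁻¹ _ h2
      rw [inv_inv] at h3
      have h4 : (h.1.left (J.fst (Lab.a h.1.right)))⁻¹ * (h.1.left (J.fst (Lab.a h.1.right)) *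
          k.1.left (h.1.right⁻¹ • J.fst (Lab.a h.1.right)) *
          (h.1.left (J.fst (Lab.a h.1.right)))⁻¹) * h.1.left (J.fst (Lab.a h.1.right))
          = k.1.left (h.1.right⁻¹ • J.fst (Lab.a h.1.right)) := by group
      rw [h4] at h3
      rw [← h3]
      apply sign_eq
      rw [J.lab_smul]
      simp [act]

/-- the element of `H` over an element of `G` -/
def lift (g : G) : H G := ⟨⟨1, g⟩, 1, 1, fun j => by simp [val_one]⟩

end

/-- **Theorem.** Every finite group `G` has a finite group `H` such that every group with a normal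
subgroup isomorphic to `H` has `G` as a quotient, by a normal subgroup which contains the
centralizer of that normal subgroup. -/
theorem rigid (G : Type) [Group G] [Finite G] :
    ∃ (Hg : Type) (_ : Group Hg), Finite Hg ∧ ∀ (X : Type) [Group X] (N : Subgroup X) [N.Normal],
      Nonempty (Hg ≃* N) → ∃ f : X →* G, Function.Surjective f ∧
        Subgroup.centralizer (N : Set X) ≤ f.ker := by
  classical
  haveI := Fintype.ofFinite G
  refine ⟨H G, inferInstance, inferInstance, ?_⟩
  rintro X _ N _ ⟨e⟩
  let f : X →* G := (Phi.comp (MulAut.congr e.symm).toMonoidHom).comp (MulAut.conjNormal (H := N))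
  have hf : ∀ h : H G, f (e h : X) = h.1.right := by
    intro h
    have h1 : (MulAut.congr e.symm) (MulAut.conjNormal (H := N) (e h : X)) = MulAut.conj h := by
      apply MulEquiv.ext
      intro k
      simp only [MulAut.congr, MulEquiv.coe_mk, Equiv.coe_fn_mk, MulEquiv.trans_apply,
        MulEquiv.symm_symm, MulAut.conj_apply]
      apply e.injective
      rw [MulEquiv.apply_symm_apply]
      apply Subtype.ext
      rw [MulAut.conjNormal_apply]
      simp
    change Phi ((MulAut.congr e.symm) (MulAut.conjNormal (H := N) (e h : X))) = _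
    rw [h1, phi_conj]
  refine ⟨f, fun g => ⟨(e (lift g) : X), hf (lift g)⟩, ?_⟩
  intro x hx
  rw [MonoidHom.mem_ker]
  have h1 : MulAut.conjNormal (H := N) x = 1 := by
    apply MulEquiv.ext
    intro n
    apply Subtype.ext
    rw [MulAut.conjNormal_apply, MulAut.one_apply]
    have := (Subgroup.mem_centralizer_iff.1 hx) n n.2
    rw [← this]; group
  change (Phi.comp (MulAut.congr e.symm).toMonoidHom) (MulAut.conjNormal (H := N) x) = 1
  rw [h1, map_one]

end Pool.Agent.Q247.IG
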