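import Pool.Prelude.Def_F_b1b78ff3
import Pool.Agent.Q247.IG.Auto

/-!
# From normal subgroups of Galois groups to quotients
-/

set_option autoImplicit false

open Nfff32c05

namespace Pool.Agent.Q247.IG

section
variable {k L : Type} [Field k] [Field L] [Algebra k L] [IsGalois k L]

theorem closed_ker (N : Subgroup (L ≃ₐ[k] L)) [N.Normal] [Finite N] {G : Type} [Group G]
    (f : (L ≃ₐ[k] L) →* G) (hf : Subgroup.centralizer (N : Set (L ≃ₐ[k] L)) ≤ f.ker) :
    IsClosed (f.ker : Set (L ≃ₐ[k] L)) := by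
  have : T2Space (L ≃ₐ[k] L) := krullTopology_t2
  have hC : IsClosed ((Subgroup.centralizer (N : Set (L ≃ₐ[k] L)) : Subgroup _) :
      Set (L ≃ₐ[k] L)) := Set.isClosed_centralizer _
  have hfi : (Subgroup.centralizer (N : Set (L ≃ₐ[k] L))).FiniteIndex := by
    have h1 : (MulAut.conjNormal (H := N)).ker ≤ Subgroup.centralizer (N : Set (L ≃ₐ[k] L)) := by
      intro x hx
      rw [Subgroup.mem_centralizer_iff]
      intro n hn
      have h2 := congrArg (fun e : MulAut N => ((e ⟨n, hn⟩ : N) : L ≃ₐ[k] L)) hx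
      simp only [MulAut.conjNormal_apply, MulAut.one_apply] at h2
      rw [mul_inv_eq_iff_eq_mul] at h2
      exact h2.symm
    have : Finite (MulAut N) := Finite.of_injective (fun e : MulAut N => (e : N → N))
      (fun a b h => MulEquiv.ext (congrFun h))
    have h3 : (MulAut.conjNormal (H := N)).ker.FiniteIndex := Subgroup.finiteIndex_ker _
    exact Subgroup.finiteIndex_of_le h1
  have hO : IsOpen ((Subgroup.centralizer (N : Set (L ≃ₐ[k] L)) : Subgroup _) :
      Set (L ≃ₐ[k] L)) := Subgroup.isOpen_of_isClosed_of_finiteIndex _ hC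
  exact Subgroup.isClosed_of_isOpen _ (Subgroup.isOpen_mono hf hO)

theorem real_of_surj {G : Type} [Group G] (f : (L ≃ₐ[k] L) →* G) (hs : Function.Surjective f)
    (hc : IsClosed (f.ker : Set (L ≃ₐ[k] L))) : IsRealizable k G := by
  let C : ClosedSubgroup (L ≃ₐ[k] L) := ⟨f.ker, hc⟩
  have hN : C.1.Normal := inferInstanceAs f.ker.Normal
  let F := IntermediateField.fixedField C.1
  have h1 : F.fixingSubgroup = C.1 := InfiniteGalois.fixingSubgroup_fixedField C
  have h2 : IsGalois k F := by
    apply (InfiniteGalois.normal_iff_isGalois F).1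
    rw [h1]; exact hN
  have e1 : ((L ≃ₐ[k] L) ⧸ f.ker) ≃* (F ≃ₐ[k] F) := InfiniteGalois.normalAutEquivQuotient C
  exact ⟨⟨⟨F, inferInstance, inferInstance, h2,
    (QuotientGroup.quotientKerEquivOfSurjective f hs).symm.trans e1⟩⟩⟩

end

/-- `H` is isomorphic to a normal subgroup of the Galois group of a Galois extension of `k`, finite
or infinite. -/
def NormalIn (k : Type) [Field k] (H : Type) [Group H] : Prop :=
  ∃ (L : Type) (_ : Field L) (_ : Algebra k L) (_ : IsGalois k L) (N : Subgroup (L ≃ₐ[k] L)),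
    N.Normal ∧ Nonempty (H ≃* N)

/-- The same with a finite extension. -/
def NormalInFinite (k : Type) [Field k] (H : Type) [Group H] : Prop :=
  ∃ (L : Type) (_ : Field L) (_ : Algebra k L) (_ : IsGalois k L) (_ : FiniteDimensional k L)
    (N : Subgroup (L ≃ₐ[k] L)), N.Normal ∧ Nonempty (H ≃* N)

/-- `H` is isomorphic to a normal subgroup of a normal subgroup of the Galois group of a finite
Galois extension of `k`. -/
def SubnormalIn (k : Type) [Field k] (H : Type) [Group H] : Prop :=
  ∃ (L : Type) (_ : Field L) (_ : Algebra k L) (_ : IsGalois k L) (_ : FiniteDimensional k L)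
    (M N : Subgroup (L ≃ₐ[k] L)), M.Normal ∧ N ≤ M ∧ (∀ m ∈ M, ∀ n ∈ N, m * n * m⁻¹ ∈ N) ∧
      Nonempty (H ≃* N)

theorem real_of_normal (G : Type) [Group G] [Finite G] :
    ∃ (H : Type) (_ : Group H), Finite H ∧
      (∀ (X : Type) [Group X] (N : Subgroup X), N.Normal → Nonempty (H ≃* N) →
        ∃ f : X →* G, Function.Surjective f) ∧
      (∀ (k : Type) [Field k], NormalIn k H → IsRealizable k G) := by
  obtain ⟨H, iH, hfin, h⟩ := rigid G
  refine ⟨H, iH, hfin, ?_, ?_⟩
  · intro X _ N hN he
    have := hN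
    obtain ⟨f, hf, _⟩ := h X N he
    exact ⟨f, hf⟩
  · rintro k _ ⟨L, _, _, _, N, hN, he⟩
    have := hN
    obtain ⟨f, hf, hz⟩ := h (L ≃ₐ[k] L) N he
    have : Finite N := Finite.of_equiv _ he.some.toEquiv
    exact real_of_surj f hf (closed_ker N f hz)

theorem findim (k L : Type) [Field k] [Field L] [Algebra k L] [IsGalois k L]
    [Finite (L ≃ₐ[k] L)] : FiniteDimensional k L := by
  have h1 := InfiniteGalois.isOpen_iff_finite (k := k) (K := L) (⊤ : IntermediateField k L)
  have h2 : IsOpen ((⊤ : IntermediateField k L).fixingSubgroup.carrier) := by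
    have : DiscreteTopology (L ≃ₐ[k] L) := by
      have : T2Space (L ≃ₐ[k] L) := krullTopology_t2
      infer_instance
    exact isOpen_discrete _
  have h3 : FiniteDimensional k (⊤ : IntermediateField k L) := h1.1 h2
  exact (IntermediateField.topEquiv (F := k) (E := L)).toLinearEquiv.finiteDimensional

theorem finite_of_real (k : Type) [Field k] (G : Type) [Group G] [Finite G]
    (h : IsRealizable k G) : NormalInFinite k G := by
  obtain ⟨⟨L, i1, i2, i3, e⟩⟩ := h.exists_realization
  have : Finite (L ≃ₐ[k] L) := Finite.of_equiv _ e.toEquiv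
  have h4 : FiniteDimensional k L := findim k L
  exact ⟨L, i1, i2, i3, h4, ⊤, inferInstance, ⟨e.trans Subgroup.topEquiv.symm⟩⟩

end Pool.Agent.Q247.IG
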