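import Mathlib

/-!
# A finite group `H` whose normal embeddings force the quotient `G`

For every finite group `G` there is a finite group `H` such that every group with a normal subgroup
isomorphic to `H` has `G` as a quotient.
-/

set_option autoImplicit false

open Equiv Equiv.Perm

namespace Pool.Agent.Q247.IG

/-- the labels: two copies of `G`, and the pairs of elements of `G` -/
inductive Lab (G : Type) : Type
  | a (x : G) : Lab G
  | b (y : G) : Lab G
  | c (x y : G) : Lab G

section
variable {G : Type} [Group G]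

/-- the left translation of labels -/
def act (g : G) : Lab G → Lab G
  | .a x => .a (g * x)
  | .b y => .b (g * y)
  | .c x y => .c (g * x) (g * y)

theorem act_one (l : Lab G) : act 1 l = l := by
  cases l <;> simp [act]

theorem act_mul (g h : G) (l : Lab G) : act (g * h) l = act g (act h l) := by
  cases l <;> simp [act, mul_assoc]

/-- the linear functional of a label -/
def val (a b : G → ℤˣ) : Lab G → ℤˣ
  | .a x => a x
  | .b y => b y
  | .c x y => a x * b y

theorem val_mul (a b a' b' : G → ℤˣ) (l : Lab G) :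
    val (a * a') (b * b') l = val a b l * val a' b' l := by
  cases l <;> simp [val, mul_mul_mul_comm]

theorem val_one (l : Lab G) : val (G := G) 1 1 l = 1 := by
  cases l <;> simp [val]

theorem val_shift (a b : G → ℤˣ) (g : G) (l : Lab G) :
    val (fun x => a (g * x)) (fun y => b (g * y)) l = val a b (act g l) := by
  cases l <;> simp [val, act]

instance [Finite G] : Finite (Lab G) :=
  Finite.of_injective (β := G ⊕ G ⊕ (G × G))
    (fun l => match l with
      | .a x => Sum.inl x
      | .b y => Sum.inr (Sum.inl y)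
      | .c x y => Sum.inr (Sum.inr (x, y)))
    (by
      intro l l' h
      cases l <;> cases l' <;> simp_all)

variable [Fintype G]

/-- the multiplicity of a label -/
noncomputable def mu : Lab G → ℕ
  | .a _ => 1
  | .b _ => 2
  | .c x y => 3 + (Fintype.equivFin G (x⁻¹ * y) : ℕ)

theorem mu_act (g : G) (l : Lab G) : mu (act g l) = mu l := by
  cases l <;> simp [mu, act, mul_assoc]

theorem mu_pos (l : Lab G) : 0 < mu l := by
  cases l <;> simp [mu]

theorem mu_lt (l : Lab G) : mu l < Fintype.card G + 3 := by
  have hG : 0 < Fintype.card G := Fintype.card_pos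
  cases l with
  | a x => simp only [mu]; omega
  | b y => simp only [mu]; omega
  | c x y =>
    simp only [mu]
    have := (Fintype.equivFin G (x⁻¹ * y)).isLt
    omega

variable (G) in
/-- the indices of the factors -/
def J : Type := {p : Lab G × ℕ // p.2 < mu p.1}

instance : Finite (J G) := by
  refine Finite.of_injective (β := Lab G × Fin (Fintype.card G + 3))
    (fun j => (j.1.1, ⟨j.1.2, j.2.trans (mu_lt _)⟩)) ?_
  intro j j' h
  simp only [Prod.mk.injEq, Fin.mk.injEq] at h
  exact Subtype.ext (Prod.ext h.1 h.2)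

noncomputable instance : DecidableEq (J G) := Classical.decEq _

/-- the label of an index -/
def J.lab (j : J G) : Lab G := j.1.1

/-- the first index with a given label -/
def J.fst (l : Lab G) : J G := ⟨(l, 0), mu_pos l⟩

@[simp] theorem J.lab_fst (l : Lab G) : (J.fst l).lab = l := rfl

instance : MulAction G (J G) where
  smul g j := ⟨(act g j.1.1, j.1.2), by rw [mu_act]; exact j.2⟩
  one_smul j := Subtype.ext (Prod.ext (act_one _) rfl)
  mul_smul g h j := Subtype.ext (Prod.ext (act_mul g h _) rfl)

@[simp] theorem J.lab_smul (g : G) (j : J G) : (g • j).lab = act g j.lab := rfl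

theorem act_free {g : G} {l : Lab G} (h : act g l = l) : g = 1 := by
  cases l <;> simp [act] at h <;> tauto

theorem smul_free {g : G} {j : J G} (h : g • j = j) : g = 1 := by
  have := congrArg J.lab h
  exact act_free this

variable (G) in
/-- the number of points moved by a factor -/
abbrev pts : ℕ := Fintype.card G + 5

variable (G) in
/-- the symmetric group used for the factors -/
abbrev S : Type := Perm (Fin (pts G))

variable (G) in
/-- the simple group -/
abbrev T : Subgroup (S G) := alternatingGroup (Fin (pts G))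

variable (G) in
/-- the permutational wreath product -/
abbrev W : Type := (J G → S G) ⋊[mulAutArrow] G

theorem arrow_apply (g : G) (F : J G → S G) (j : J G) :
    (mulAutArrow g F) j = F (g⁻¹ • j) := rfl

variable (G) in
/-- the group `H` -/
def H : Subgroup (W G) where
  carrier := {w | ∃ a b : G → ℤˣ, ∀ j : J G, sign (w.left j) = val a b j.lab}
  mul_mem' := by
    rintro w w' ⟨a, b, h⟩ ⟨a', b', h'⟩
    refine ⟨a * (fun x => a' (w.right⁻¹ * x)), b * (fun x => b' (w.right⁻¹ * x)), fun j => ?_⟩
    rw [SemidirectProduct.mul_left, Pi.mul_apply, arrow_apply, map_mul, h, h', val_mul, val_shift]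
    rfl
  one_mem' := ⟨1, 1, fun j => by simp [val_one]⟩
  inv_mem' := by
    rintro w ⟨a, b, h⟩
    refine ⟨fun x => a (w.right * x), fun x => b (w.right * x), fun j => ?_⟩
    rw [SemidirectProduct.inv_left, arrow_apply, inv_inv, Pi.inv_apply, map_inv, h, val_shift]
    simp

theorem mem_H {w : W G} : w ∈ H G ↔ ∃ a b : G → ℤˣ, ∀ j : J G, sign (w.left j) = val a b j.lab :=
  Iff.rfl


theorem sign_eq {h : H G} {i j : J G} (e : i.lab = j.lab) : sign (h.1.left i) = sign (h.1.left j) := by
  obtain ⟨a, b, hab⟩ := h.2
  rw [hab, hab, e]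

/-- the `j`-th factor -/
noncomputable def incl (j : J G) : T G →* H G :=
  ((SemidirectProduct.inl.comp (MonoidHom.mulSingle (fun _ : J G => S G) j)).comp
    (T G).subtype).codRestrict (H G) (by
      intro t
      refine ⟨1, 1, fun i => ?_⟩
      rw [val_one]
      by_cases hi : i = j
      · subst hi
        simpa using (mem_alternatingGroup.1 t.2)
      · simp [hi])

theorem incl_left (j : J G) (t : T G) : (incl j t).1.left = Pi.mulSingle j (t : S G) := rfl

theorem incl_right (j : J G) (t : T G) : (incl j t).1.right = 1 := rfl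

theorem incl_inj (j : J G) : Function.Injective (incl j) := by
  intro t t' h
  have h1 := congrArg (fun z : H G => z.1.left j) h
  simp only [incl_left, Pi.mulSingle_eq_same] at h1
  exact Subtype.ext h1

theorem ext_H {h k : H G} (hr : h.1.right = k.1.right) (hl : ∀ j, h.1.left j = k.1.left j) :
    h = k := by
  apply Subtype.ext
  apply SemidirectProduct.ext
  · funext j; exact hl j
  · exact hr

theorem mul_left' (h k : H G) (j : J G) :
    (h * k).1.left j = h.1.left j * k.1.left (h.1.right⁻¹ • j) := rfl

theorem mul_right' (h k : H G) : (h * k).1.right = h.1.right * k.1.right := rfl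

theorem inv_left' (h : H G) (j : J G) : (h⁻¹).1.left j = (h.1.left (h.1.right • j))⁻¹ := by
  change (mulAutArrow h.1.right⁻¹ h.1.left⁻¹) j = _
  rw [arrow_apply, inv_inv, Pi.inv_apply]

theorem inv_right' (h : H G) : (h⁻¹).1.right = h.1.right⁻¹ := rfl

theorem conj_right {h k : H G} (hk : k.1.right = 1) : (h * k * h⁻¹).1.right = 1 := by
  rw [mul_right', mul_right', inv_right', hk]; simp

theorem conj_left {h k : H G} (hk : k.1.right = 1) (j : J G) :
    (h * k * h⁻¹).1.left j =
      h.1.left j * k.1.left (h.1.right⁻¹ • j) * (h.1.left j)⁻¹ := by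
  rw [mul_left', mul_left', inv_left', mul_right', hk]
  simp

instance finite_W : Finite (W G) :=
  Finite.of_injective (fun w : W G => (w.left, w.right)) (by
    intro a b h
    simp only [Prod.mk.injEq] at h
    exact SemidirectProduct.ext h.1 h.2)

theorem card_T : 2 * Nat.card (T G) = (Fintype.card G + 5).factorial := by
  have : Nontrivial (Fin (pts G)) := Fin.nontrivial_iff_two_le.2 (by simp [pts])
  rw [two_mul_nat_card_alternatingGroup, Nat.card_perm, Nat.card_eq_fintype_card, Fintype.card_fin]

theorem card_T_gt : Fintype.card G < Nat.card (T G) ∧ 2 < Nat.card (T G) := by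
  have h := card_T (G := G)
  have h1 : (Fintype.card G + 5).factorial
      = (Fintype.card G + 5) * ((Fintype.card G + 4) * (Fintype.card G + 3).factorial) := rfl
  have h2 : 1 ≤ (Fintype.card G + 3).factorial := Nat.factorial_pos _
  have h3 : (Fintype.card G + 5) * (Fintype.card G + 4) ≤ (Fintype.card G + 5).factorial := by
    rw [h1]
    exact Nat.mul_le_mul_left _ (Nat.le_mul_of_pos_right _ h2)
  constructor <;> nlinarith

instance simpleT : IsSimpleGroup (T G) := alternatingGroup.isSimpleGroup (by simp [pts])

theorem hom_trivial {A : Type} [Group A] [Finite A] (hA : Nat.card A < Nat.card (T G))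
    (f : T G →* A) (t : T G) : f t = 1 := by
  rcases (inferInstance : f.ker.Normal).eq_bot_or_eq_top with h | h
  · exfalso
    have hf : Function.Injective f := (MonoidHom.ker_eq_bot_iff f).1 h
    exact absurd (Nat.card_le_card_of_injective f hf) (not_le.2 hA)
  · have : t ∈ f.ker := by rw [h]; trivial
    exact this

theorem copy_right (u : T G →* H G) (t : T G) : (u t).1.right = 1 :=
  hom_trivial (A := G) (by rw [Nat.card_eq_fintype_card]; exact card_T_gt.1)
    ((SemidirectProduct.rightHom.comp (H G).subtype).comp u) t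

theorem copy_sign (u : T G →* H G) (t : T G) (j : J G) : sign ((u t).1.left j) = 1 := by
  let v : T G →* ℤˣ :=
    { toFun := fun t => sign ((u t).1.left j)
      map_one' := by simp
      map_mul' := by
        intro t t'
        rw [map_mul, mul_left', copy_right, inv_one, one_smul, map_mul] }
  exact hom_trivial (A := ℤˣ) (by
    rw [Nat.card_eq_fintype_card, Fintype.card_units_int]; exact card_T_gt.2) v t

/-- conjugation of a factor by an element of the kernel -/
theorem conj_incl {h : H G} (hr : h.1.right = 1) (j : J G) (t : T G)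
    (hs : sign (h.1.left j * (t : S G) * (h.1.left j)⁻¹) = 1) :
    h * incl j t * h⁻¹ = incl j ⟨h.1.left j * (t : S G) * (h.1.left j)⁻¹, hs⟩ := by
  apply ext_H
  · rw [conj_right (incl_right _ _), incl_right]
  · intro i
    rw [conj_left (incl_right _ _), incl_left, incl_left, hr, inv_one, one_smul]
    by_cases hi : i = j
    · subst hi; simp
    · simp [hi]

theorem sign_conj (s t : S G) (ht : sign t = 1) : sign (s * t * s⁻¹) = 1 := by
  rw [map_mul, map_mul, map_inv, ht]; simp

/-- the homomorphisms whose image is a factor -/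
def Good (u : T G →* H G) : Prop :=
  Function.Injective u ∧ ∀ u' : T G →* H G, Function.Injective u' → ∀ t t' : T G, ∃ t'' : T G,
    u' t' * u t * (u' t')⁻¹ = u t''

theorem good_incl (j : J G) : Good (incl j) := by
  refine ⟨incl_inj j, fun u' _ t t' => ?_⟩
  exact ⟨_, conj_incl (copy_right u' t') j t (sign_conj _ _ t.2)⟩

theorem good_map (φ : H G ≃* H G) {u : T G →* H G} (hu : Good u) :
    Good (φ.toMonoidHom.comp u) := by
  refine ⟨φ.injective.comp hu.1, fun u' hu' t t' => ?_⟩
  obtain ⟨t'', h⟩ := hu.2 (φ.symm.toMonoidHom.comp u') (φ.symm.injective.comp hu') t t'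
  refine ⟨t'', ?_⟩
  have := congrArg φ h
  simpa using this

theorem exists_noncomm {f : S G} (hf : sign f = 1) (h1 : f ≠ 1) :
    ∃ s : T G, f * (s : S G) * f⁻¹ * (s : S G)⁻¹ ≠ 1 := by
  by_contra hcon
  push Not at hcon
  have hc : (⟨f, hf⟩ : T G) ∈ Subgroup.center (T G) := by
    rw [Subgroup.mem_center_iff]
    intro s
    apply Subtype.ext
    have := hcon s
    simp only [Subgroup.coe_mul]
    rw [mul_inv_eq_one, mul_inv_eq_iff_eq_mul] at this
    exact this.symm
  have hb : Subgroup.center (T G) = ⊥ := alternatingGroup.center_eq_bot (by simp [pts])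
  rw [hb, Subgroup.mem_bot] at hc
  exact h1 (congrArg Subtype.val hc)

theorem good_range {u : T G →* H G} (hu : Good u) : ∃ j : J G, (incl j).range = u.range := by
  obtain ⟨t0, ht0⟩ := exists_ne (1 : T G)
  have hne : u t0 ≠ 1 := fun h => ht0 (hu.1 (by rw [h, map_one]))
  have hj : ∃ j, (u t0).1.left j ≠ 1 := by
    by_contra hcon
    push Not at hcon
    exact hne (ext_H (copy_right u t0) (fun j => by rw [hcon j]; rfl))
  obtain ⟨j, hj⟩ := hj
  refine ⟨j, ?_⟩
  obtain ⟨s, hs⟩ := exists_noncomm (copy_sign u t0 j) hj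
  -- the preimage of the range of `u`
  let N : Subgroup (T G) := u.range.comap (incl j)
  have hN : N.Normal := by
    refine ⟨fun n hn t => ?_⟩
    obtain ⟨r, hr⟩ := hn
    obtain ⟨r', hr'⟩ := hu.2 (incl j) (incl_inj j) r t
    refine ⟨r', ?_⟩
    rw [map_mul, map_mul, map_inv, ← hr']
    rw [hr]
  have hsN : (⟨(u t0).1.left j * (s : S G) * ((u t0).1.left j)⁻¹, sign_conj _ _ s.2⟩ * s⁻¹ : T G)
      ∈ N := by
    change incl j _ ∈ u.range
    rw [map_mul, ← conj_incl (copy_right u t0) j s (sign_conj _ _ s.2), map_inv, mul_assoc, mul_assoc]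
    obtain ⟨r, hr⟩ := hu.2 (incl j) (incl_inj j) t0⁻¹ s
    refine ⟨t0 * r, ?_⟩
    rw [map_mul, ← hr, map_inv, mul_assoc]
  have hNt : N = ⊤ := by
    rcases hN.eq_bot_or_eq_top with h | h
    · exfalso
      rw [h, Subgroup.mem_bot] at hsN
      exact hs (congrArg Subtype.val hsN)
    · exact h
  have hle : (incl j).range ≤ u.range := by
    rintro _ ⟨t, rfl⟩
    have : t ∈ N := by rw [hNt]; trivial
    exact this
  have hc1 : Nat.card (incl j).range = Nat.card (T G) :=
    (Nat.card_congr (MonoidHom.ofInjective (incl_inj j)).toEquiv).symm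
  have hc2 : Nat.card u.range = Nat.card (T G) :=
    (Nat.card_congr (MonoidHom.ofInjective hu.1).toEquiv).symm
  exact Subgroup.eq_of_le_of_card_ge hle (by rw [hc1, hc2])


theorem range_incl_inj {i j : J G} (h : (incl i).range = (incl j).range) : i = j := by
  by_contra hij
  obtain ⟨t, ht⟩ := exists_ne (1 : T G)
  have : incl i t ∈ (incl j).range := by rw [← h]; exact ⟨t, rfl⟩
  obtain ⟨t', ht'⟩ := this
  have h1 := congrArg (fun z : H G => z.1.left i) ht'
  simp only [incl_left, Pi.mulSingle_eq_same] at h1
  rw [Pi.mulSingle_eq_of_ne hij] at h1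
  exact ht (Subtype.ext h1.symm)

omit [Group G] in
theorem cent_alt {f : S G} (h : ∀ s : T G, f * (s : S G) = s * f) : f = 1 := by
  by_contra hne
  obtain ⟨x, hx⟩ : ∃ x, f x ≠ x := by
    by_contra hcon
    push Not at hcon
    exact hne (Equiv.ext hcon)
  have hcard : ({x, f x} : Finset (Fin (pts G))).card < Fintype.card (Fin (pts G)) - 1 := by
    have h1 : ({x, f x} : Finset (Fin (pts G))).card ≤ 2 := Finset.card_le_two
    rw [Fintype.card_fin]; unfold pts; omega
  obtain ⟨y, hy⟩ : ∃ y, y ∉ ({x, f x} : Finset (Fin (pts G))) := by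
    by_contra hcon
    push Not at hcon
    have := Finset.card_le_card (fun y (_ : y ∈ (Finset.univ : Finset (Fin (pts G)))) => hcon y)
    rw [Finset.card_univ] at this
    omega
  obtain ⟨z, hz⟩ : ∃ z, z ∉ ({x, f x, y} : Finset (Fin (pts G))) := by
    by_contra hcon
    push Not at hcon
    have := Finset.card_le_card (fun y (_ : y ∈ (Finset.univ : Finset (Fin (pts G)))) => hcon y)
    rw [Finset.card_univ] at this
    have h3 : ({x, f x, y} : Finset (Fin (pts G))).card ≤ 3 := Finset.card_le_three
    rw [Fintype.card_fin] at this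
    unfold pts at this
    omega
  simp only [Finset.mem_insert, Finset.mem_singleton, not_or] at hy hz
  have hyx : y ≠ x := hy.1
  have hyf : y ≠ f x := hy.2
  have hzx : z ≠ x := hz.1
  have hzf : z ≠ f x := hz.2.1
  have hzy : z ≠ y := hz.2.2
  let t : S G := swap x y * swap x z
  have ht : sign t = 1 := by
    rw [map_mul, sign_swap hyx.symm, sign_swap hzx.symm]; rfl
  have h1 := h ⟨t, ht⟩
  have h2 := Equiv.congr_fun h1 x
  simp only [Perm.mul_apply] at h2
  have h3 : t (f x) = f x := by
    simp only [t, Perm.mul_apply]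
    rw [swap_apply_of_ne_of_ne hx (Ne.symm hzf), swap_apply_of_ne_of_ne hx (Ne.symm hyf)]
  have h4 : t x = z := by
    simp only [t, Perm.mul_apply, swap_apply_left]
    rw [swap_apply_of_ne_of_ne hzx hzy]
  change f (t x) = t (f x) at h2
  rw [h3, h4] at h2
  exact hzx (f.injective h2)

/-- the elements that act on `F` by conjugation like an element of `F` -/
def Inn (F : Subgroup (H G)) (h : H G) : Prop := ∃ f ∈ F, ∀ x ∈ F, h * x * h⁻¹ = f * x * f⁻¹

theorem inn_map (φ : H G ≃* H G) (F : Subgroup (H G)) (h : H G) :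
    Inn (F.map φ.toMonoidHom) (φ h) ↔ Inn F h := by
  constructor
  · rintro ⟨_, ⟨f, hf, rfl⟩, h2⟩
    refine ⟨f, hf, fun x hx => ?_⟩
    have := h2 (φ x) ⟨x, hx, rfl⟩
    apply φ.injective
    simpa using this
  · rintro ⟨f, hf, h2⟩
    refine ⟨φ f, ⟨f, hf, rfl⟩, ?_⟩
    rintro _ ⟨x, hx, rfl⟩
    have := congrArg φ (h2 x hx)
    simpa using this

theorem inn_incl (j : J G) (h : H G) :
    Inn (incl j).range h ↔ h.1.right = 1 ∧ sign (h.1.left j) = 1 := by
  constructor
  · rintro ⟨f, ⟨t, rfl⟩, h2⟩
    have hr : h.1.right = 1 := by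
      obtain ⟨s, hs⟩ := exists_ne (1 : T G)
      have h3 := h2 (incl j s) ⟨s, rfl⟩
      have h4 := congrArg (fun z : H G => z.1.left (h.1.right • j)) h3
      simp only [conj_left (incl_right _ _), incl_right, inv_smul_smul, incl_left,
        Pi.mulSingle_eq_same, inv_one, one_smul] at h4
      by_contra hne
      have hne' : h.1.right • j ≠ j := fun e => hne (smul_free e)
      rw [Pi.mulSingle_eq_of_ne hne', Pi.mulSingle_eq_of_ne hne'] at h4
      simp only [one_mul, inv_one, mul_one, mul_inv_eq_one, mul_eq_left] at h4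
      exact hs (Subtype.ext h4)
    refine ⟨hr, ?_⟩
    by_contra hsg
    have h5 : ∀ s : T G, h.1.left j * (s : S G) * (h.1.left j)⁻¹ = (t : S G) * s * (t : S G)⁻¹ := by
      intro s
      have h3 := h2 (incl j s) ⟨s, rfl⟩
      have h4 := congrArg (fun z : H G => z.1.left j) h3
      simpa only [conj_left (incl_right _ _), incl_right, hr, incl_left, one_smul,
        Pi.mulSingle_eq_same, inv_one] using h4
    -- the element `t⁻¹ * h.left j` centralizes the alternating group
    have h6 : ∀ s : T G, ((t : S G)⁻¹ * h.1.left j) * (s : S G) = s * ((t : S G)⁻¹ * h.1.left j) := by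
      intro s
      have := h5 s
      rw [mul_inv_eq_iff_eq_mul] at this
      rw [mul_assoc, this]
      group
    have h7 := cent_alt h6
    apply hsg
    rw [inv_mul_eq_one] at h7
    rw [← h7]; exact t.2
  · rintro ⟨hr, hs⟩
    refine ⟨incl j ⟨h.1.left j, hs⟩, ⟨_, rfl⟩, ?_⟩
    rintro _ ⟨t, rfl⟩
    rw [conj_incl hr j t (sign_conj _ _ t.2), ← map_inv, ← map_mul, ← map_mul]
    rfl

end
end Pool.Agent.Q247.IG
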